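import Mathlib

/-!
# l-torsion in class groups of quadratic fields, QA: the ring of integers of a quadratic field
-/

set_option autoImplicit false

namespace ELT

open scoped NumberField
open NumberField Module

/-- The coordinates of `1` in a basis are coprime. -/
theorem QA_coprime (K : Type) [Field K] [NumberField K]
    (b : Basis (Fin 2) ℤ (𝓞 K)) (u₀ v₀ : ℤ) (h1 : (1 : 𝓞 K) = u₀ • b 0 + v₀ • b 1) :
    IsCoprime u₀ v₀ := by
  rw [Int.isCoprime_iff_gcd_eq_one]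
  set g : ℕ := Int.gcd u₀ v₀ with hg
  obtain ⟨u, hu⟩ : (g : ℤ) ∣ u₀ := Int.gcd_dvd_left ..
  obtain ⟨v, hv⟩ : (g : ℤ) ∣ v₀ := Int.gcd_dvd_right ..
  have h3 : (1 : 𝓞 K) = algebraMap ℤ (𝓞 K) (g : ℤ) * (u • b 0 + v • b 1) := by
    rw [h1, hu, hv, mul_add, mul_smul, mul_smul, ← Algebra.smul_def, ← Algebra.smul_def]
  have h4 : IsUnit (Algebra.norm ℤ (algebraMap ℤ (𝓞 K) (g : ℤ))) := by
    have h5 : Algebra.norm ℤ (algebraMap ℤ (𝓞 K) (g : ℤ)) *
        Algebra.norm ℤ (u • b 0 + v • b 1) = 1 := by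
      rw [← map_mul, ← h3, map_one]
    exact IsUnit.of_mul_eq_one _ h5
  rw [Algebra.norm_algebraMap_of_basis b, Fintype.card_fin] at h4
  have h6 : IsUnit (g : ℤ) := by
    rw [isUnit_pow_iff (by norm_num)] at h4
    exact h4
  rw [Int.isUnit_iff] at h6
  rcases h6 with h6 | h6 <;> omega

/-- Integral basis `1, θ` of a quadratic field.

PROOF. `𝓞 K` is free of rank 2 over `ℤ` (`RingOfIntegers.basis`, `RingOfIntegers.rank`). The quotient
`𝓞 K / ℤ` is torsion free (if `k β = m` with integers `k ≠ 0`, `m`, then `β` is a rational integral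
element, so `β ∈ ℤ`), so `1` is part of a basis: writing `1 = u₀ b₀ + v₀ b₁` in some basis, `gcd(u₀, v₀) = 1`
(a common divisor `g` gives `1/g ∈ 𝓞 K`), take `x v₀ - y u₀`-type completion, i.e. `r u₀ + s v₀ = 1` and
`θ = -s b₀ + r b₁`. Then `θ² = t θ - n` for integers `t, n`. The norm of `u + v θ` is the determinant of the matrix
of multiplication in the basis `1, θ` (`Algebra.norm_eq_matrix_det`): `u² + t u v + n v²`, its trace
is `2u + t v`; the discriminant (`NumberField.discr_eq_discr` for this basis, `Algebra.discr_def`,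
`Algebra.traceMatrix`) is `2 (t² - 2n) - t² = t² - 4n`. -/
theorem exists_theta (K : Type) [Field K] [NumberField K] (h2 : finrank ℚ K = 2) :
    ∃ (θ : 𝓞 K) (t n : ℤ), θ ^ 2 = (t : 𝓞 K) * θ - (n : 𝓞 K) ∧
      (∀ β : 𝓞 K, ∃ u v : ℤ, β = (u : 𝓞 K) + (v : 𝓞 K) * θ) ∧
      (∀ u v : ℤ, (u : 𝓞 K) + (v : 𝓞 K) * θ = 0 → u = 0 ∧ v = 0) ∧
      discr K = t ^ 2 - 4 * n ∧
      ∀ u v : ℤ, Algebra.norm ℤ ((u : 𝓞 K) + (v : 𝓞 K) * θ) = u ^ 2 + t * u * v + n * v ^ 2 := by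
  have hrank : finrank ℤ (𝓞 K) = 2 := by rw [RingOfIntegers.rank, h2]
  set b : Basis (Fin 2) ℤ (𝓞 K) := Module.finBasisOfFinrankEq ℤ (𝓞 K) hrank with hb
  have hsum : ∀ β : 𝓞 K, β = (b.repr β 0 : 𝓞 K) * b 0 + (b.repr β 1 : 𝓞 K) * b 1 := by
    intro β
    have h1 := b.sum_repr β
    rw [Fin.sum_univ_two] at h1
    simpa [zsmul_eq_mul] using h1.symm
  have hind : ∀ x y : ℤ, (x : 𝓞 K) * b 0 + (y : 𝓞 K) * b 1 = 0 → x = 0 ∧ y = 0 := by
    intro x y hxy
    have h1 : ∑ i, (![x, y] : Fin 2 → ℤ) i • b i = 0 := by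
      rw [Fin.sum_univ_two]
      simpa [zsmul_eq_mul] using hxy
    have h3 := Fintype.linearIndependent_iff.1 b.linearIndependent _ h1
    exact ⟨by simpa using h3 0, by simpa using h3 1⟩
  set u₀ : ℤ := b.repr 1 0 with hu₀
  set v₀ : ℤ := b.repr 1 1 with hv₀
  have hone : (1 : 𝓞 K) = (u₀ : 𝓞 K) * b 0 + (v₀ : 𝓞 K) * b 1 := hsum 1
  have hcop : IsCoprime u₀ v₀ := by
    refine QA_coprime K b u₀ v₀ ?_
    rw [zsmul_eq_mul, zsmul_eq_mul]
    exact hone
  obtain ⟨r, s, hrs⟩ := hcop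
  have hrs' : (r : 𝓞 K) * u₀ + s * v₀ = 1 := by exact_mod_cast hrs
  set θ : 𝓞 K := -(s : 𝓞 K) * b 0 + (r : 𝓞 K) * b 1 with hθ
  have hex : ∀ β : 𝓞 K, ∃ u v : ℤ, β = (u : 𝓞 K) + (v : 𝓞 K) * θ := by
    intro β
    refine ⟨r * b.repr β 0 + s * b.repr β 1, -v₀ * b.repr β 0 + u₀ * b.repr β 1, ?_⟩
    have h1 := hsum β
    set x := b.repr β 0
    set y := b.repr β 1
    rw [h1, hθ]
    push_cast
    have h3 : ((r : 𝓞 K) * x + s * y) = ((r : 𝓞 K) * x + s * y) * 1 := (mul_one _).symm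
    rw [h3, hone]
    linear_combination (-(x : 𝓞 K) * b 0 - (y : 𝓞 K) * b 1) * hrs'
  have hun : ∀ u v : ℤ, (u : 𝓞 K) + (v : 𝓞 K) * θ = 0 → u = 0 ∧ v = 0 := by
    intro u v huv
    have h1 : ((u * u₀ - v * s : ℤ) : 𝓞 K) * b 0 + ((u * v₀ + v * r : ℤ) : 𝓞 K) * b 1 = 0 := by
      have h3 : (u : 𝓞 K) = (u : 𝓞 K) * 1 := (mul_one _).symm
      rw [h3, hone, hθ] at huv
      push_cast
      linear_combination huv
    obtain ⟨h3, h4⟩ := hind _ _ h1
    constructor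
    · linear_combination r * h3 + s * h4 - u * hrs
    · linear_combination (-v₀) * h3 + u₀ * h4 - v * hrs
  obtain ⟨n', t, htn⟩ := hex (θ ^ 2)
  have hθ2 : θ ^ 2 = (t : 𝓞 K) * θ - ((-n' : ℤ) : 𝓞 K) := by
    rw [htn]
    push_cast
    ring
  -- the basis `1, θ`
  have hli : LinearIndependent ℤ (![1, θ] : Fin 2 → 𝓞 K) := by
    rw [LinearIndependent.pair_iff]
    intro u v huv
    refine hun u v ?_
    rw [zsmul_eq_mul, zsmul_eq_mul, mul_one] at huv
    exact huv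
  have hsp : ⊤ ≤ Submodule.span ℤ (Set.range (![1, θ] : Fin 2 → 𝓞 K)) := by
    intro β _
    obtain ⟨u, v, huv⟩ := hex β
    rw [huv]
    refine Submodule.add_mem _ ?_ ?_
    · have h1 : (u : 𝓞 K) = u • (![1, θ] : Fin 2 → 𝓞 K) 0 := by simp
      rw [h1]
      exact Submodule.smul_mem _ _ (Submodule.subset_span ⟨0, rfl⟩)
    · have h1 : (v : 𝓞 K) * θ = v • (![1, θ] : Fin 2 → 𝓞 K) 1 := by simp
      rw [h1]
      exact Submodule.smul_mem _ _ (Submodule.subset_span ⟨1, rfl⟩)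
  set c : Basis (Fin 2) ℤ (𝓞 K) := Basis.mk hli hsp with hc
  have hc0 : c 0 = 1 := by rw [hc, Basis.mk_apply]; rfl
  have hc1 : c 1 = θ := by rw [hc, Basis.mk_apply]; rfl
  have hrepr : ∀ u v : ℤ, c.repr ((u : 𝓞 K) + (v : 𝓞 K) * θ) 0 = u ∧
      c.repr ((u : 𝓞 K) + (v : 𝓞 K) * θ) 1 = v := by
    intro u v
    have h1 : (u : 𝓞 K) + (v : 𝓞 K) * θ = u • c 0 + v • c 1 := by
      rw [hc0, hc1, zsmul_eq_mul, zsmul_eq_mul, mul_one]
    rw [h1]
    simp [-zsmul_eq_mul]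
  have hM : ∀ u v : ℤ, Algebra.leftMulMatrix c ((u : 𝓞 K) + (v : 𝓞 K) * θ) =
      !![u, n' * v; v, u + t * v] := by
    intro u v
    have h1 : ((u : 𝓞 K) + (v : 𝓞 K) * θ) * θ =
        ((n' * v : ℤ) : 𝓞 K) + ((u + t * v : ℤ) : 𝓞 K) * θ := by
      have h3 : ((u : 𝓞 K) + (v : 𝓞 K) * θ) * θ = (u : 𝓞 K) * θ + (v : 𝓞 K) * θ ^ 2 := by ring
      rw [h3, htn]
      push_cast
      ring
    ext i j
    rw [Algebra.leftMulMatrix_eq_repr_mul]
    fin_cases j
    · simp only [Fin.zero_eta, hc0, mul_one]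
      fin_cases i
      · simpa using (hrepr u v).1
      · simpa using (hrepr u v).2
    · simp only [Fin.mk_one, hc1]
      rw [h1]
      fin_cases i
      · simpa using (hrepr (n' * v) (u + t * v)).1
      · simpa using (hrepr (n' * v) (u + t * v)).2
  have hT : ∀ u v : ℤ, Algebra.trace ℤ (𝓞 K) ((u : 𝓞 K) + (v : 𝓞 K) * θ) = 2 * u + t * v := by
    intro u v
    rw [Algebra.trace_eq_matrix_trace c, hM, Matrix.trace_fin_two]
    simp
    ring
  refine ⟨θ, t, -n', hθ2, hex, hun, ?_, fun u v => ?_⟩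
  · rw [← discr_eq_discr K c, Algebra.discr_def, Matrix.det_fin_two]
    simp only [Algebra.traceMatrix_apply, Algebra.traceForm_apply, hc0, hc1]
    have e1 : (1 : 𝓞 K) * 1 = ((1 : ℤ) : 𝓞 K) + ((0 : ℤ) : 𝓞 K) * θ := by simp
    have e2 : (1 : 𝓞 K) * θ = ((0 : ℤ) : 𝓞 K) + ((1 : ℤ) : 𝓞 K) * θ := by simp
    have e3 : θ * 1 = ((0 : ℤ) : 𝓞 K) + ((1 : ℤ) : 𝓞 K) * θ := by simp
    have e4 : θ * θ = (n' : 𝓞 K) + (t : 𝓞 K) * θ := by rw [← htn]; ring
    rw [e1, e2, e3, e4, hT, hT, hT]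
    ring
  · rw [Algebra.norm_eq_matrix_det c, hM, Matrix.det_fin_two]
    simp
    ring

/-- Integral elements of the form `(a + b θ) / m`. -/
theorem QA_int (K : Type) [Field K] [NumberField K] {θ : 𝓞 K}
    (hex : ∀ β : 𝓞 K, ∃ u v : ℤ, β = (u : 𝓞 K) + (v : 𝓞 K) * θ)
    (hun : ∀ u v : ℤ, (u : 𝓞 K) + (v : 𝓞 K) * θ = 0 → u = 0 ∧ v = 0) (m a b A B : ℤ)
    (x : K) (hx : (m : K) * x = a + b * (θ : K)) (hx2 : x ^ 2 = A * x + B) :
    m ∣ a ∧ m ∣ b := by
  have hint : IsIntegral ℤ x := by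
    refine ⟨Polynomial.X ^ 2 - (Polynomial.C A * Polynomial.X + Polynomial.C B), ?_, ?_⟩
    · exact Polynomial.monic_X_pow_sub (lt_of_le_of_lt Polynomial.degree_linear_le (by norm_num))
    · simp only [Polynomial.eval₂_sub, Polynomial.eval₂_pow, Polynomial.eval₂_X,
        Polynomial.eval₂_add, Polynomial.eval₂_mul, Polynomial.eval₂_C]
      rw [eq_intCast, eq_intCast, hx2, sub_self]
  obtain ⟨β, hβ⟩ : ∃ β : 𝓞 K, algebraMap (𝓞 K) K β = x := ⟨⟨x, hint⟩, rfl⟩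
  have h1 : (m : 𝓞 K) * β = a + b * θ := by
    apply RingOfIntegers.coe_injective
    rw [map_mul, map_add, map_mul, map_intCast, map_intCast, map_intCast, hβ]
    exact hx
  obtain ⟨u, v, huv⟩ := hex β
  have h3 : ((m * u - a : ℤ) : 𝓞 K) + ((m * v - b : ℤ) : 𝓞 K) * θ = 0 := by
    push_cast
    rw [huv] at h1
    linear_combination h1
  obtain ⟨h4, h5⟩ := hun _ _ h3
  exact ⟨⟨u, by linarith⟩, ⟨v, by linarith⟩⟩

/-- No odd square divides the discriminant. -/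
theorem QA_odd (K : Type) [Field K] [NumberField K] {θ : 𝓞 K} {t n : ℤ}
    (hθ : θ ^ 2 = (t : 𝓞 K) * θ - (n : 𝓞 K))
    (hex : ∀ β : 𝓞 K, ∃ u v : ℤ, β = (u : 𝓞 K) + (v : 𝓞 K) * θ)
    (hun : ∀ u v : ℤ, (u : 𝓞 K) + (v : 𝓞 K) * θ = 0 → u = 0 ∧ v = 0) (p : ℕ) (hp : p.Prime)
    (hp2 : p ≠ 2) : ¬ (p : ℤ) * p ∣ t ^ 2 - 4 * n := by
  rintro ⟨c, hc⟩
  have hθ' : (θ : K) ^ 2 = t * (θ : K) - n := by
    have := congrArg (fun z : 𝓞 K => (z : K)) hθ
    push_cast at this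
    exact this
  have hp0 : (p : K) ≠ 0 := by exact_mod_cast hp.ne_zero
  have hcK : (t : K) ^ 2 - 4 * n = p * p * c := by exact_mod_cast hc
  have h1 := QA_int K hex hun p (-t) 2 0 c ((2 * (θ : K) - t) / p)
    (by
      push_cast
      field_simp
      ring)
    (by
      push_cast
      rw [div_pow, div_eq_iff (pow_ne_zero 2 hp0)]
      linear_combination 4 * hθ' + hcK)
  have h3 : (p : ℤ) ∣ 2 := h1.2
  have h4 : p ∣ 2 := by exact_mod_cast h3
  exact hp2 ((Nat.prime_dvd_prime_iff_eq hp Nat.prime_two).1 h4)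

theorem QA_sqfree (m : ℤ) (h : ∀ p : ℕ, p.Prime → ¬ (p : ℤ) * p ∣ m) : Squarefree m := by
  rw [← Int.squarefree_natAbs, Nat.squarefree_iff_prime_squarefree]
  intro p hp hd
  refine h p hp ?_
  rw [← Int.dvd_natAbs]
  exact_mod_cast hd

/-- The discriminant of a quadratic field is a fundamental discriminant.

PROOF. With `D = t² - 4n`, `δ = 2θ - t`, `δ² = D`. `D ≡ t² ≡ 0, 1 mod 4`. If `p` is an odd prime with
`p² ∣ D`: `δ/p` has square `D/p² ∈ ℤ`, so it is integral, `δ = p β` with `β ∈ 𝓞 K`, `β = u + v θ`: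
`2θ - t = p u + p v θ`, so `p v = 2`, impossible for odd `p`. So `D` has no odd square factor. If `D ≡ 1 mod 4`,
`D` is squarefree. If `D = 4m` (`t` even, replace `θ` by `θ - t/2`, i.e. `γ = θ - t/2`, `γ² = m`):
`m ≡ 0 mod 4` would make `γ/2` integral (`(γ/2)² = m/4`), `m ≡ 1 mod 4` would make `(1+γ)/2` integral
(`x² - x - (m-1)/4 = 0`); in both cases `γ/2` resp. `(1+γ)/2` would be `u + v θ` with `2v = 1`, impossible. So
`m ≡ 2, 3 mod 4`, and `m` is squarefree (no odd square factor, and `4 ∤ m`). -/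
theorem fund_discr (K : Type) [Field K] [NumberField K] (h2 : finrank ℚ K = 2) :
    (discr K % 4 = 1 ∧ Squarefree (discr K)) ∨
      (∃ m : ℤ, discr K = 4 * m ∧ (m % 4 = 2 ∨ m % 4 = 3) ∧ Squarefree m) := by
  obtain ⟨θ, t, n, hθ, hex, hun, hD, -⟩ := exists_theta K h2
  have hθ' : (θ : K) ^ 2 = t * (θ : K) - n := by
    have := congrArg (fun z : 𝓞 K => (z : K)) hθ
    push_cast at this
    exact this
  rw [hD]
  rcases Int.even_or_odd t with ht | ht
  · right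
    obtain ⟨s, hs⟩ := ht
    have hmod : (s ^ 2 - n) % 4 = 2 ∨ (s ^ 2 - n) % 4 = 3 := by
      have hsK : (t : K) = s + s := by exact_mod_cast hs
      have h0 : ¬ (s ^ 2 - n) % 4 = 0 := by
        intro h0
        obtain ⟨c, hc⟩ := Int.dvd_of_emod_eq_zero h0
        have hcK : (s : K) ^ 2 - n = 4 * c := by exact_mod_cast hc
        have h1 := QA_int K hex hun 2 (-s) 1 0 c (((θ : K) - s) / 2)
          (by push_cast; ring)
          (by
            push_cast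
            rw [hsK] at hθ'
            linear_combination (1 / 4) * hθ' + (1 / 4) * hcK)
        have h3 : (2 : ℤ) ∣ 1 := h1.2
        norm_num at h3
      have h1 : ¬ (s ^ 2 - n) % 4 = 1 := by
        intro h0
        have h00 : (s ^ 2 - n - 1) % 4 = 0 := by omega
        obtain ⟨c, hc⟩ := Int.dvd_of_emod_eq_zero h00
        have hcK : (s : K) ^ 2 - n - 1 = 4 * c := by exact_mod_cast hc
        have h1 := QA_int K hex hun 2 (1 - s) 1 1 c ((1 + ((θ : K) - s)) / 2)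
          (by push_cast; ring)
          (by
            push_cast
            rw [hsK] at hθ'
            linear_combination (1 / 4) * hθ' + (1 / 4) * hcK)
        have h3 : (2 : ℤ) ∣ 1 := h1.2
        norm_num at h3
      omega
    refine ⟨s ^ 2 - n, by rw [hs]; ring, hmod, ?_⟩
    · refine QA_sqfree _ fun p hp hd => ?_
      by_cases hp2 : p = 2
      · rw [hp2] at hd
        obtain ⟨c, hc⟩ := hd
        push_cast at hc
        omega
      · refine QA_odd K hθ hex hun p hp hp2 ?_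
        have h4 : t ^ 2 - 4 * n = 4 * (s ^ 2 - n) := by rw [hs]; ring
        rw [h4]
        exact Dvd.dvd.mul_left hd 4
  · left
    obtain ⟨s, hs⟩ := ht
    have h4 : t ^ 2 - 4 * n = 4 * (s ^ 2 + s - n) + 1 := by rw [hs]; ring
    refine ⟨by omega, QA_sqfree _ fun p hp hd => ?_⟩
    by_cases hp2 : p = 2
    · rw [hp2] at hd
      obtain ⟨c, hc⟩ := hd
      push_cast at hc
      omega
    · exact QA_odd K hθ hex hun p hp hp2 hd

/-- The homomorphism to `ZMod p` defined by a root of `x² - t x + n`. -/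
theorem QA_hom (K : Type) [Field K] [NumberField K] {θ : 𝓞 K} {t n : ℤ}
    (hθ : θ ^ 2 = (t : 𝓞 K) * θ - (n : 𝓞 K))
    (hex : ∀ β : 𝓞 K, ∃ u v : ℤ, β = (u : 𝓞 K) + (v : 𝓞 K) * θ)
    (hun : ∀ u v : ℤ, (u : 𝓞 K) + (v : 𝓞 K) * θ = 0 → u = 0 ∧ v = 0) (p : ℕ) (ρ : ℤ)
    (hρ : (p : ℤ) ∣ ρ ^ 2 - t * ρ + n) : ∃ φ : 𝓞 K →+* ZMod p, φ θ = (ρ : ZMod p) := by
  choose U V hUV using hex
  have huniq : ∀ (β : 𝓞 K) (u v : ℤ), β = (u : 𝓞 K) + (v : 𝓞 K) * θ → U β = u ∧ V β = v := by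
    intro β u v h
    have h1 : ((U β - u : ℤ) : 𝓞 K) + ((V β - v : ℤ) : 𝓞 K) * θ = 0 := by
      push_cast
      linear_combination h - hUV β
    obtain ⟨h3, h4⟩ := hun _ _ h1
    exact ⟨by linarith, by linarith⟩
  have hρ' : ((ρ : ZMod p)) ^ 2 - t * ρ + n = 0 := by
    have := (ZMod.intCast_zmod_eq_zero_iff_dvd (ρ ^ 2 - t * ρ + n) p).2 hρ
    push_cast at this
    exact this
  refine ⟨{ toFun := fun β => (U β : ZMod p) + (V β : ZMod p) * ρ
            map_one' := ?_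
            map_mul' := ?_
            map_zero' := ?_
            map_add' := ?_ }, ?_⟩
  · obtain ⟨h1, h3⟩ := huniq 1 1 0 (by simp)
    rw [h1, h3]
    simp
  · intro α β
    obtain ⟨h1, h3⟩ := huniq (α * β) (U α * U β - n * (V α * V β))
      (U α * V β + V α * U β + t * (V α * V β)) (by
        conv_lhs => rw [hUV α, hUV β]
        push_cast
        linear_combination ((V α : 𝓞 K) * (V β : 𝓞 K)) * hθ)
    simp only [h1, h3]
    push_cast
    linear_combination (-(V α : ZMod p) * (V β : ZMod p)) * hρ'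
  · obtain ⟨h1, h3⟩ := huniq 0 0 0 (by simp)
    simp only [h1, h3]
    simp
  · intro α β
    obtain ⟨h1, h3⟩ := huniq (α + β) (U α + U β) (V α + V β) (by
        conv_lhs => rw [hUV α, hUV β]
        push_cast
        ring)
    simp only [h1, h3]
    push_cast
    ring
  · obtain ⟨h1, h3⟩ := huniq θ 0 1 (by simp)
    show (U θ : ZMod p) + (V θ : ZMod p) * ρ = ρ
    rw [h1, h3]
    simp

theorem QA_ker (K : Type) [Field K] [NumberField K] (p : ℕ) [Fact p.Prime]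
    (φ : 𝓞 K →+* ZMod p) : (RingHom.ker φ).IsMaximal ∧ Ideal.absNorm (RingHom.ker φ) = p ∧
      (p : 𝓞 K) ∈ RingHom.ker φ := by
  have hs : Function.Surjective φ := by
    intro y
    obtain ⟨z, hz⟩ := ZMod.intCast_surjective y
    exact ⟨(z : 𝓞 K), by rw [map_intCast, hz]⟩
  refine ⟨RingHom.ker_isMaximal_of_surjective φ hs, ?_, ?_⟩
  · rw [Ideal.absNorm_apply, Submodule.cardQuot_apply,
      Nat.card_congr (RingHom.quotientKerEquivOfSurjective hs).toEquiv, Nat.card_zmod]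
  · rw [RingHom.mem_ker, map_natCast, ZMod.natCast_self]

/-- The prime ideals above a split prime.

PROOF. `x² ≡ D mod 4p`, so `x ≡ t mod 2` and `ρ = (t + x)/2` satisfies `ρ² - tρ + n = (x² - D)/4 ≡ 0 mod p`. The map
`u + v θ ↦ u + v ρ` is a well defined ring homomorphism `φ : 𝓞 K →+* ZMod p` (unique coordinates;
multiplicative because `ρ² = tρ - n` in `ZMod p`), surjective; `𝔭 = ker φ` is maximal with
`absNorm = p` (cardinality of the quotient). `𝔭'` the same with `ρ' = t - ρ`. They are different: `θ - ρ ∈ 𝔭`, and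
if it were in `𝔭'` then `ρ' ≡ ρ`, i.e. `x = 2ρ - t ≡ 0 mod p`, so `p ∣ D` (for `p = 2`: `D ≡ x² mod 8` with `x` even
gives `2 ∣ D`). The product: `𝔭 𝔭' ≤ 𝔭 ⊓ 𝔭'`, `(p) ≤ 𝔭 𝔭'`: `𝔭 + 𝔭' = 1` (different maximal ideals), so
`𝔭 𝔭' = 𝔭 ∩ 𝔭'`, which contains `p`; and norms: `absNorm (𝔭 𝔭') = p² = absNorm (p)` (rank 2), so equality. -/
theorem split_primes (K : Type) [Field K] [NumberField K] (h2 : finrank ℚ K = 2) (p : ℕ)
    (hp : p.Prime) (hD : ¬ (p : ℤ) ∣ discr K) (hx : ∃ x : ℤ, (4 * (p : ℤ)) ∣ x ^ 2 - discr K) :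
    ∃ P P' : Ideal (𝓞 K), P.IsMaximal ∧ P'.IsMaximal ∧ P ≠ P' ∧
      P * P' = Ideal.span {(p : 𝓞 K)} ∧ Ideal.absNorm P = p ∧ Ideal.absNorm P' = p := by
  have : Fact p.Prime := ⟨hp⟩
  obtain ⟨θ, t, n, hθ, hex, hun, hdisc, hnorm⟩ := exists_theta K h2
  obtain ⟨x, c, hc⟩ := hx
  rw [hdisc] at hc hD
  obtain ⟨ρ, hρ⟩ : ∃ ρ : ℤ, t + x = 2 * ρ := by
    have h1 : Even (x ^ 2 - t ^ 2) := ⟨2 * (p * c - n), by linear_combination hc⟩
    have h3 : Even (t + x) := by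
      have h4 : x ^ 2 - t ^ 2 = (t + x) * (x - t) := by ring
      rw [h4, Int.even_mul] at h1
      rcases h1 with h1 | h1
      · exact h1
      · have h5 : t + x = (x - t) + 2 * t := by ring
        rw [h5]
        exact h1.add (even_two_mul t)
    obtain ⟨ρ, h⟩ := h3
    exact ⟨ρ, by rw [h]; ring⟩
  have hx' : x = 2 * ρ - t := by linarith
  have hd : ρ ^ 2 - t * ρ + n = p * c := by
    have h1 : 4 * (ρ ^ 2 - t * ρ + n) = 4 * (p * c) := by
      rw [← mul_assoc, ← hc, hx']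
      ring
    linarith
  obtain ⟨φ, hφ⟩ := QA_hom K hθ hex hun p ρ ⟨c, hd⟩
  obtain ⟨φ', hφ'⟩ := QA_hom K hθ hex hun p (t - ρ) ⟨c, by rw [← hd]; ring⟩
  obtain ⟨m1, n1, p1⟩ := QA_ker K p φ
  obtain ⟨m2, n2, p2⟩ := QA_ker K p φ'
  have hne : RingHom.ker φ ≠ RingHom.ker φ' := by
    intro heq
    have h1 : θ - (ρ : 𝓞 K) ∈ RingHom.ker φ := by
      rw [RingHom.mem_ker, map_sub, hφ, map_intCast, sub_self]
    rw [heq, RingHom.mem_ker, map_sub, hφ', map_intCast] at h1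
    have h3 : (((t - ρ) - ρ : ℤ) : ZMod p) = 0 := by
      push_cast
      push_cast at h1
      exact h1
    rw [ZMod.intCast_zmod_eq_zero_iff_dvd] at h3
    have h4 : (p : ℤ) ∣ x := by
      have h5 : x = -((t - ρ) - ρ) := by rw [hx']; ring
      rw [h5]
      exact (dvd_neg).2 h3
    refine hD ?_
    have h5 : t ^ 2 - 4 * n = x * x - p * (4 * c) := by linear_combination (-1 : ℤ) * hc
    rw [h5]
    exact dvd_sub (Dvd.dvd.mul_left h4 x) (dvd_mul_right _ _)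
  refine ⟨RingHom.ker φ, RingHom.ker φ', m1, m2, hne, ?_, n1, n2⟩
  have hcop : IsCoprime (RingHom.ker φ) (RingHom.ker φ') := by
    rw [Ideal.isCoprime_iff_sup_eq]
    exact m1.coprime_of_ne m2 hne
  have hle : Ideal.span {(p : 𝓞 K)} ≤ RingHom.ker φ * RingHom.ker φ' := by
    rw [Ideal.mul_eq_inf_of_isCoprime hcop, Ideal.span_singleton_le_iff_mem]
    exact ⟨p1, p2⟩
  obtain ⟨J, hJ⟩ := Ideal.dvd_iff_le.2 hle
  have hN := congrArg Ideal.absNorm hJ
  rw [map_mul, map_mul, n1, n2, Ideal.absNorm_span_singleton] at hN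
  have hnp : Algebra.norm ℤ ((p : 𝓞 K)) = p ^ 2 := by
    have := hnorm p 0
    simpa using this
  rw [hnp, Int.natAbs_pow, Int.natAbs_natCast] at hN
  have hp0 : 0 < p * p := Nat.mul_pos hp.pos hp.pos
  have hJ1 : Ideal.absNorm J = 1 := by
    have h1 : p * p * Ideal.absNorm J = p * p * 1 := by rw [← hN]; ring
    exact Nat.eq_of_mul_eq_mul_left hp0 h1
  rw [Ideal.absNorm_eq_one_iff] at hJ1
  rw [hJ, hJ1, Ideal.mul_top]

end ELT
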