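import Pool.Agent.W_aaa0df_h68tors.QA

/-!
# l-torsion, QC: the lemma of Ellenberg and Venkatesh for imaginary quadratic fields
-/

set_option autoImplicit false

namespace ELT

open scoped NumberField
open NumberField Module

/-- PROOF. `β = u + v θ`, `4 N(β) = (2u + tv)² - D v²` with `D = t² - 4n < 0`. If `v ≠ 0` then
`4 |N(β)| ≥ |D|`. -/
theorem small_norm (K : Type) [Field K] [NumberField K] (h2 : finrank ℚ K = 2) (hneg : discr K < 0)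
    (β : 𝓞 K) (hβ : 4 * |Algebra.norm ℤ β| < |discr K|) : ∃ u : ℤ, β = (u : 𝓞 K) := by
  sorry

/-- PROOF. `P₁, P₁'`, `P₂, P₂'` from `split_primes`. Suppose `[P₁]^ℓ = [P₂]^ℓ`. As `P₂ P₂' = (p₂)`,
`[P₁^ℓ P₂'^ℓ] = 1`: the ideal `P₁^ℓ P₂'^ℓ = (β)` is principal (`ClassGroup.mk0_eq_one_iff`),
`|N β| = absNorm = (p₁ p₂)^ℓ` (`Ideal.absNorm_span_singleton`), `4 (p₁ p₂)^ℓ < |D|`, so `β = u` is an integer
by `small_norm`. `u ∈ P₁` and `P₁ ∩ ℤ = p₁ ℤ` (`ℓ ≥ 1`; `P₁` is proper and contains `p₁`), so `p₁ ∣ u`,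
so `u ∈ P₁'` (`p₁ ∈ P₁'`). Hence `P₁^ℓ P₂'^ℓ ≤ P₁'`, and as `P₁'` is prime `P₁ ≤ P₁'` or `P₂' ≤ P₁'`; by maximality
`P₁ = P₁'` (excluded) or `P₂' = P₁'`, which contains `p₁` and `p₂`, coprime: contradiction. -/
theorem ev_inj (K : Type) [Field K] [NumberField K] (h2 : finrank ℚ K = 2) (hneg : discr K < 0)
    (ℓ : ℕ) (hℓ : 1 ≤ ℓ) (p₁ p₂ : ℕ) (hp₁ : p₁.Prime) (hp₂ : p₂.Prime) (hne : p₁ ≠ p₂)
    (P₁ P₁' P₂ P₂' : Ideal (𝓞 K)) (h₁ : P₁.IsMaximal) (h₁' : P₁'.IsMaximal) (h₂ : P₂.IsMaximal)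
    (h₂' : P₂'.IsMaximal) (hne₁ : P₁ ≠ P₁')
    (hm₁ : P₁ * P₁' = Ideal.span {(p₁ : 𝓞 K)}) (hm₂ : P₂ * P₂' = Ideal.span {(p₂ : 𝓞 K)})
    (hn₁ : Ideal.absNorm P₁ = p₁) (hn₂ : Ideal.absNorm P₂' = p₂)
    (hsmall : 4 * ((p₁ : ℤ) * p₂) ^ ℓ < |discr K|)
    (a₁ a₂ : nonZeroDivisors (Ideal (𝓞 K))) (ha₁ : (a₁ : Ideal (𝓞 K)) = P₁)
    (ha₂ : (a₂ : Ideal (𝓞 K)) = P₂) :
    ClassGroup.mk0 a₁ ^ ℓ ≠ ClassGroup.mk0 a₂ ^ ℓ := by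
  sorry

/-- ELLENBERG-VENKATESH for imaginary quadratic fields.

PROOF. For `p ∈ S` choose `P_p` (`split_primes`); `p ↦ [P_p]^ℓ` is injective on `S` by `ev_inj`
(`4 (p₁ p₂)^ℓ < |D|` since `4 p^(2ℓ) < |D|` for both: `(p₁ p₂)^ℓ ≤ max(p₁,p₂)^(2ℓ)`), with values in the image of
the homomorphism `x ↦ x^ℓ` of the finite abelian group `ClassGroup (𝓞 K)`; image times kernel is the
group order (`Subgroup.card_range_mul_card_ker`-type lemma, `powMonoidHom`). -/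
theorem ev_lemma (K : Type) [Field K] [NumberField K] (h2 : finrank ℚ K = 2) (hneg : discr K < 0)
    (ℓ : ℕ) (hℓ : 1 ≤ ℓ) (S : Finset ℕ) (hS : ∀ p ∈ S, p.Prime ∧ ¬ (p : ℤ) ∣ discr K ∧
      (∃ x : ℤ, (4 * (p : ℤ)) ∣ x ^ 2 - discr K) ∧ 4 * (p : ℤ) ^ (2 * ℓ) < |discr K|) :
    S.card * Nat.card {x : ClassGroup (𝓞 K) // x ^ ℓ = 1} ≤ Nat.card (ClassGroup (𝓞 K)) := by
  sorry

end ELT
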