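import Mathlib
import Pool.Agent.W_fd120a_h34.Div

/-!
# l-torsion, QD: upper bound for the class number of a quadratic field
-/

set_option autoImplicit false

namespace ELT

open scoped NumberField
open NumberField Module

set_option linter.deprecated false in
theorem QD_card_over (K : Type) [Field K] [NumberField K] (h2 : finrank ℚ K = 2) (p : ℕ)
    (hp : p.Prime) :
    (IsDedekindDomain.primesOverFinset (Ideal.span {(p : ℤ)}) (𝓞 K)).card ≤ 2 := by
  have : Fact p.Prime := ⟨hp⟩
  have : (Ideal.span {(p : ℤ)}).IsMaximal := Int.ideal_span_isMaximal_of_prime p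
  have hp0 : Ideal.span {(p : ℤ)} ≠ ⊥ := by
    rw [Ne, Ideal.span_singleton_eq_bot]
    exact_mod_cast hp.ne_zero
  have h := Ideal.card_primesOverFinset_le_finrank (𝓞 K) ℚ K hp0
  rw [h2] at h
  exact h

/-- A nonzero prime `P` and a prime number `p ∈ P`: `p` divides the norm of `P`. -/
theorem QD_dvd_norm (K : Type) [Field K] [NumberField K] (P : Ideal (𝓞 K)) (hP : P.IsPrime)
    (p : ℕ) (hp : p.Prime) (hpP : (p : 𝓞 K) ∈ P) : p ∣ Ideal.absNorm P := by
  by_contra h
  have hco : Nat.Coprime p (Ideal.absNorm P) := (Nat.Prime.coprime_iff_not_dvd hp).mpr h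
  apply hP.ne_top
  rw [Ideal.eq_top_iff_one]
  obtain ⟨a, b, hab⟩ := (Nat.isCoprime_iff_coprime.mpr hco)
  have h1 : ((a * p + b * Ideal.absNorm P : ℤ) : 𝓞 K) ∈ P := by
    push_cast
    exact P.add_mem (P.mul_mem_left _ hpP) (P.mul_mem_left _ (Ideal.absNorm_mem P))
  rw [hab] at h1
  simpa using h1

/-- A natural number in a prime ideal has a prime factor in it. -/
theorem QD_exists_prime (K : Type) [Field K] [NumberField K] (P : Ideal (𝓞 K)) (hP : P.IsPrime) :
    ∀ n : ℕ, n ≠ 0 → (n : 𝓞 K) ∈ P → ∃ p : ℕ, p.Prime ∧ p ∣ n ∧ (p : 𝓞 K) ∈ P := by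
  intro n
  induction n using Nat.strong_induction_on with
  | _ n ih =>
    intro h0 hn
    have h1 : n ≠ 1 := by
      rintro rfl
      apply hP.ne_top
      rw [Ideal.eq_top_iff_one]
      simpa using hn
    have hp := Nat.minFac_prime h1
    obtain ⟨k, hk⟩ := Nat.minFac_dvd n
    have hk0 : k ≠ 0 := by
      rintro rfl
      omega
    have hmem : ((n.minFac : ℕ) : 𝓞 K) * (k : 𝓞 K) ∈ P := by
      rw [← Nat.cast_mul, ← hk]
      exact hn
    rcases hP.mem_or_mem hmem with h | h
    · exact ⟨_, hp, Nat.minFac_dvd n, h⟩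
    · have hlt : k < n := by
        rw [hk]
        have := hp.two_le
        nlinarith [Nat.pos_of_ne_zero hk0]
      obtain ⟨q, hq1, hq2, hq3⟩ := ih k hlt hk0 h
      exact ⟨q, hq1, hq2.trans ⟨_, by rw [mul_comm]; exact hk⟩, hq3⟩

theorem QD_mem_over (K : Type) [Field K] [NumberField K] (P : Ideal (𝓞 K)) (hP : P.IsPrime)
    (p : ℕ) (hp : p.Prime) (hpP : (p : 𝓞 K) ∈ P) :
    P ∈ IsDedekindDomain.primesOverFinset (Ideal.span {(p : ℤ)}) (𝓞 K) := by
  have : Fact p.Prime := ⟨hp⟩
  have hm : (Ideal.span {(p : ℤ)}).IsMaximal := Int.ideal_span_isMaximal_of_prime p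
  have hp0 : Ideal.span {(p : ℤ)} ≠ ⊥ := by
    rw [Ne, Ideal.span_singleton_eq_bot]
    exact_mod_cast hp.ne_zero
  rw [IsDedekindDomain.mem_primesOverFinset_iff hp0]
  refine ⟨hP, ⟨?_⟩⟩
  refine hm.eq_of_le ?_ ?_
  · rw [Ne, Ideal.eq_top_iff_one]
    intro h
    apply hP.ne_top
    rw [Ideal.eq_top_iff_one]
    simpa [Ideal.under] using h
  · rw [Ideal.span_singleton_le_iff_mem]
    simpa [Ideal.under] using hpP

theorem QD_mem_of_over (K : Type) [Field K] [NumberField K] (P : Ideal (𝓞 K))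
    (p : ℕ) (hp : p.Prime)
    (h : P ∈ IsDedekindDomain.primesOverFinset (Ideal.span {(p : ℤ)}) (𝓞 K)) :
    P.IsPrime ∧ (p : 𝓞 K) ∈ P := by
  have : Fact p.Prime := ⟨hp⟩
  have hm : (Ideal.span {(p : ℤ)}).IsMaximal := Int.ideal_span_isMaximal_of_prime p
  have hp0 : Ideal.span {(p : ℤ)} ≠ ⊥ := by
    rw [Ne, Ideal.span_singleton_eq_bot]
    exact_mod_cast hp.ne_zero
  rw [IsDedekindDomain.mem_primesOverFinset_iff hp0] at h
  obtain ⟨h1, ⟨h2⟩⟩ := h
  refine ⟨h1, ?_⟩
  have h3 : (p : ℤ) ∈ P.under ℤ := by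
    rw [← h2]
    exact Ideal.mem_span_singleton_self _
  simpa [Ideal.under] using h3

/-- The exponent of `P` in `I` is at most the exponent of `p` in the norm. -/
theorem QD_count_le (K : Type) [Field K] [NumberField K] (m : ℕ) (hm : 1 ≤ m) (I : Ideal (𝓞 K))
    (hI : Ideal.absNorm I = m) (P : Ideal (𝓞 K)) (hP : P.IsPrime) (p : ℕ) (hp : p.Prime)
    (hpP : (p : 𝓞 K) ∈ P) :
    Multiset.count P (UniqueFactorizationMonoid.normalizedFactors I) ≤ m.factorization p := by
  classical
  have hI0 : I ≠ 0 := by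
    rintro rfl
    simp at hI
    omega
  rw [← Nat.Prime.pow_dvd_iff_le_factorization hp (by omega)]
  set k := Multiset.count P (UniqueFactorizationMonoid.normalizedFactors I) with hk
  have h1 : P ^ k ∣ I := by
    have h2 : Multiset.replicate k P ≤ UniqueFactorizationMonoid.normalizedFactors I :=
      Multiset.le_count_iff_replicate_le.mp (le_refl _)
    have h3 := Multiset.prod_dvd_prod_of_le h2
    rw [Multiset.prod_replicate] at h3
    rwa [Ideal.prod_normalizedFactors_eq_self hI0] at h3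
  have h4 : Ideal.absNorm P ^ k ∣ m := by
    rw [← hI, ← map_pow]
    exact map_dvd Ideal.absNorm h1
  exact (pow_dvd_pow_of_dvd (QD_dvd_norm K P hP p hp hpP) k).trans h4

/-- PROOF. For every rational prime `p` there are at most two prime ideals of `𝓞 K` containing `p`
(`Ideal.sum_ramification_inertia`: `∑ e f = 2`, each term `≥ 1`; or: the product of three different ones would
divide `(p)`, norm `p²`). An ideal `I` of norm `m ≥ 1` is the product of prime ideal powers `P^(v_P(I))`
(`UniqueFactorizationMonoid`, `normalizedFactors`); `P ∣ I` implies that `P` contains exactly one prime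
`p`, `p ∣ m`, and `absNorm (P^v) ∣ m`, `p ∣ absNorm P` give `v_P(I) ≤ v_p(m)`. So `I` is determined by at most two
exponents in `[0, v_p(m)]` for every `p ∣ m`: at most `∏ (v_p(m) + 1)² = τ(m)²` ideals. -/
theorem card_ideals_norm (K : Type) [Field K] [NumberField K] (h2 : finrank ℚ K = 2) (m : ℕ)
    (hm : 1 ≤ m) : Nat.card {I : Ideal (𝓞 K) // Ideal.absNorm I = m} ≤ m.divisors.card ^ 2 := by
  classical
  set T : ℕ → Finset (Ideal (𝓞 K)) := fun p =>
    IsDedekindDomain.primesOverFinset (Ideal.span {(p : ℤ)}) (𝓞 K) with hT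
  set U : Finset (Σ _ : ℕ, Ideal (𝓞 K)) := m.primeFactors.sigma T with hU
  set W := U.pi (fun x => Finset.range (m.factorization x.1 + 1)) with hW
  have hmem : ∀ I : {I : Ideal (𝓞 K) // Ideal.absNorm I = m},
      (fun (x : Σ _ : ℕ, Ideal (𝓞 K)) (_ : x ∈ U) =>
        Multiset.count x.2 (UniqueFactorizationMonoid.normalizedFactors I.1)) ∈ W := by
    intro I
    rw [hW, Finset.mem_pi]
    intro x hx
    rw [hU, Finset.mem_sigma] at hx
    have hp : x.1.Prime := Nat.prime_of_mem_primeFactors hx.1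
    obtain ⟨h3, h4⟩ := QD_mem_of_over K x.2 x.1 hp hx.2
    rw [Finset.mem_range, Nat.lt_succ_iff]
    exact QD_count_le K m hm I.1 I.2 x.2 h3 x.1 hp h4
  let g : {I : Ideal (𝓞 K) // Ideal.absNorm I = m} → W := fun I => ⟨_, hmem I⟩
  have hg : Function.Injective g := by
    intro I J hIJ
    have h0 : ∀ x ∈ U, Multiset.count x.2 (UniqueFactorizationMonoid.normalizedFactors I.1) =
        Multiset.count x.2 (UniqueFactorizationMonoid.normalizedFactors J.1) := by
      intro x hx
      have := congrArg Subtype.val hIJ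
      exact congrFun (congrFun this x) hx
    have hin : ∀ (L : {I : Ideal (𝓞 K) // Ideal.absNorm I = m}) (P : Ideal (𝓞 K)),
        P ∈ UniqueFactorizationMonoid.normalizedFactors L.1 → ∃ p : ℕ, (⟨p, P⟩ : Σ _ : ℕ,
          Ideal (𝓞 K)) ∈ U := by
      intro L P hPL
      have hL0 : L.1 ≠ 0 := by
        intro h
        have := L.2
        rw [h] at this
        simp at this
        omega
      have hPp := UniqueFactorizationMonoid.prime_of_normalized_factor P hPL
      have hPd := UniqueFactorizationMonoid.dvd_of_mem_normalizedFactors hPL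
      have hP : P.IsPrime := Ideal.isPrime_of_prime hPp
      have hn : Ideal.absNorm P ∣ m := by
        rw [← L.2]
        exact map_dvd Ideal.absNorm hPd
      have hn0 : Ideal.absNorm P ≠ 0 := by
        rintro h
        rw [h] at hn
        have := Nat.eq_zero_of_zero_dvd hn
        omega
      obtain ⟨p, hp, hpd, hpP⟩ := QD_exists_prime K P hP _ hn0 (Ideal.absNorm_mem P)
      refine ⟨p, ?_⟩
      rw [hU, Finset.mem_sigma]
      refine ⟨?_, QD_mem_over K P hP p hp hpP⟩
      exact Nat.mem_primeFactors.mpr ⟨hp, hpd.trans hn, by omega⟩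
    have hmul : UniqueFactorizationMonoid.normalizedFactors I.1 =
        UniqueFactorizationMonoid.normalizedFactors J.1 := by
      ext P
      by_cases h1 : P ∈ UniqueFactorizationMonoid.normalizedFactors I.1
      · obtain ⟨p, hp⟩ := hin I P h1
        exact h0 ⟨p, P⟩ hp
      · by_cases h2 : P ∈ UniqueFactorizationMonoid.normalizedFactors J.1
        · obtain ⟨p, hp⟩ := hin J P h2
          exact h0 ⟨p, P⟩ hp
        · rw [Multiset.count_eq_zero_of_notMem h1, Multiset.count_eq_zero_of_notMem h2]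
    have hne : ∀ (L : {I : Ideal (𝓞 K) // Ideal.absNorm I = m}), L.1 ≠ 0 := by
      intro L h
      have := L.2
      rw [h] at this
      simp at this
      omega
    apply Subtype.ext
    rw [← Ideal.prod_normalizedFactors_eq_self (hne I), hmul,
      Ideal.prod_normalizedFactors_eq_self (hne J)]
  calc Nat.card {I : Ideal (𝓞 K) // Ideal.absNorm I = m} ≤ Nat.card W :=
        Nat.card_le_card_of_injective g hg
    _ = W.card := by simp
    _ = ∏ p ∈ m.primeFactors, (m.factorization p + 1) ^ (T p).card := by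
        rw [hW, Finset.card_pi, hU, Finset.prod_sigma]
        refine Finset.prod_congr rfl fun p _ => ?_
        simp
    _ ≤ ∏ p ∈ m.primeFactors, (m.factorization p + 1) ^ 2 := by
        refine Finset.prod_le_prod' fun p hp => ?_
        exact Nat.pow_le_pow_right (by omega)
          (QD_card_over K h2 p (Nat.prime_of_mem_primeFactors hp))
    _ = m.divisors.card ^ 2 := by
        rw [Finset.prod_pow, Nat.card_divisors (by omega)]


theorem QD_norm_le (K : Type) [Field K] [NumberField K] (h2 : finrank ℚ K = 2)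
    (c : ClassGroup (𝓞 K)) : ∃ I : Ideal (𝓞 K), ∃ hI : I ∈ nonZeroDivisors (Ideal (𝓞 K)),
      ClassGroup.mk0 ⟨I, hI⟩ = c ∧ 1 ≤ Ideal.absNorm I ∧
      (Ideal.absNorm I : ℝ) ≤ √|(discr K : ℝ)| := by
  obtain ⟨⟨I, hI⟩, h3, h4⟩ := NumberField.exists_ideal_in_class_of_norm_le c
  refine ⟨I, hI, h3, ?_, ?_⟩
  · rw [Nat.one_le_iff_ne_zero, Ne, Ideal.absNorm_eq_zero_iff]
    exact nonZeroDivisors.ne_zero hI
  · refine h4.trans ?_
    rw [h2]
    have hr := NumberField.InfinitePlace.card_add_two_mul_card_eq_rank K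
    rw [h2] at hr
    have hr1 : NumberField.InfinitePlace.nrComplexPlaces K ≤ 1 := by omega
    have hpi : 4 / Real.pi ≤ 2 := by
      rw [div_le_iff₀ Real.pi_pos]
      have := Real.pi_gt_three
      linarith
    have hpi0 : 0 ≤ 4 / Real.pi := by positivity
    have hp : (4 / Real.pi) ^ NumberField.InfinitePlace.nrComplexPlaces K ≤ 2 := by
      interval_cases h5 : NumberField.InfinitePlace.nrComplexPlaces K
      · simp
      · simpa using hpi
    have hs : 0 ≤ √|(discr K : ℝ)| := Real.sqrt_nonneg _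
    have hp0 : 0 ≤ (4 / Real.pi) ^ NumberField.InfinitePlace.nrComplexPlaces K := by positivity
    norm_num [Nat.factorial]
    nlinarith

/-- PROOF. Every class contains an integral ideal of norm
`≤ (4/π)^r₂ (2!/2²) √|D| ≤ √|D|` (`RingOfIntegers.exists_ideal_in_class_of_norm_le` or
`NumberField.exists_ideal_in_class_of_norm_le`, `finrank = 2`, `r₂ ≤ 1`, `4/π ≤ 2`). So
`h ≤ ∑_{1 ≤ m ≤ √|D|} τ(m)² ≤ √|D| · C |D|^ε'` (`FD120.divisor_bound`). -/
theorem class_bound (ε : ℝ) (hε : 0 < ε) : ∃ C : ℝ, 0 < C ∧ ∀ (K : Type) [Field K] [NumberField K],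
    finrank ℚ K = 2 → (Nat.card (ClassGroup (𝓞 K)) : ℝ) ≤ C * |(discr K : ℝ)| ^ (1 / 2 + ε) := by
  classical
  obtain ⟨C, hC, hdiv⟩ := FD120.divisor_bound ε hε
  refine ⟨C ^ 2, by positivity, ?_⟩
  intro K _ _ h2
  set D : ℝ := |(discr K : ℝ)| with hD
  have hD0 : 0 < D := by
    rw [hD]
    exact abs_pos.mpr (by exact_mod_cast NumberField.discr_ne_zero K)
  set X : ℕ := ⌊√D⌋₊ with hX
  have hXle : (X : ℝ) ≤ √D := Nat.floor_le (Real.sqrt_nonneg _)
  let S : ℕ → Finset (Ideal (𝓞 K)) := fun m =>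
    if hm : m = 0 then ∅ else (Ideal.finite_setOfPred_absNorm_eq (S := 𝓞 K) m).toFinset
  set V : Finset (Ideal (𝓞 K)) := (Finset.Icc 1 X).biUnion S with hV
  have hS : ∀ m : ℕ, 1 ≤ m → (S m).card ≤ m.divisors.card ^ 2 := by
    intro m hm
    have h3 := card_ideals_norm K h2 m hm
    have h4 : (S m).card = Nat.card {I : Ideal (𝓞 K) // Ideal.absNorm I = m} := by
      have h5 : S m = (Ideal.finite_setOfPred_absNorm_eq (S := 𝓞 K) m).toFinset := by
        simp only [S]
        rw [dif_neg (by omega)]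
      rw [h5, ← Set.ncard_eq_toFinset_card _ (Ideal.finite_setOfPred_absNorm_eq (S := 𝓞 K) m)]
      rfl
    rw [h4]
    exact h3
  choose I hI hmk hI1 hI2 using QD_norm_le K h2
  have hIV : ∀ c, I c ∈ V := by
    intro c
    rw [hV, Finset.mem_biUnion]
    refine ⟨Ideal.absNorm (I c), Finset.mem_Icc.mpr ⟨hI1 c, Nat.le_floor (hI2 c)⟩, ?_⟩
    simp only [S]
    rw [dif_neg (by have := hI1 c; omega)]
    simp
  have hinj : Function.Injective (fun c => (⟨I c, hIV c⟩ : V)) := by
    intro c c' h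
    have h3 : I c = I c' := congrArg Subtype.val h
    rw [← hmk c, ← hmk c']
    congr 1
    exact Subtype.ext h3
  have h3 : Nat.card (ClassGroup (𝓞 K)) ≤ V.card := by
    have := Nat.card_le_card_of_injective _ hinj
    simpa using this
  have h4 : (V.card : ℝ) ≤ ∑ m ∈ Finset.Icc 1 X, ((m.divisors.card : ℝ)) ^ 2 := by
    have h5 : V.card ≤ ∑ m ∈ Finset.Icc 1 X, m.divisors.card ^ 2 := by
      refine Finset.card_biUnion_le.trans ?_
      exact Finset.sum_le_sum fun m hm => hS m (Finset.mem_Icc.mp hm).1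
    exact_mod_cast h5
  have h5 : ∑ m ∈ Finset.Icc 1 X, ((m.divisors.card : ℝ)) ^ 2 ≤ X * (C ^ 2 * D ^ ε) := by
    have h6 : ∀ m ∈ Finset.Icc 1 X, ((m.divisors.card : ℝ)) ^ 2 ≤ C ^ 2 * D ^ ε := by
      intro m hm
      rw [Finset.mem_Icc] at hm
      have h7 := hdiv m (by omega)
      have h8 : (m : ℝ) ≤ √D := le_trans (by exact_mod_cast hm.2) hXle
      have h9 : (m : ℝ) ^ ε ≤ (√D) ^ ε := Real.rpow_le_rpow (by positivity) h8 hε.le
      have h10 : ((√D) ^ ε) ^ 2 = D ^ ε := by
        rw [Real.sqrt_eq_rpow, ← Real.rpow_natCast, ← Real.rpow_mul hD0.le,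
          ← Real.rpow_mul hD0.le]
        congr 1
        push_cast
        ring
      calc ((m.divisors.card : ℝ)) ^ 2 ≤ (C * (√D) ^ ε) ^ 2 := by
            gcongr
            exact h7.trans (by gcongr)
        _ = C ^ 2 * D ^ ε := by rw [mul_pow, h10]
    calc ∑ m ∈ Finset.Icc 1 X, ((m.divisors.card : ℝ)) ^ 2 ≤
          ∑ m ∈ Finset.Icc 1 X, C ^ 2 * D ^ ε := Finset.sum_le_sum h6
      _ = X * (C ^ 2 * D ^ ε) := by simp
  calc (Nat.card (ClassGroup (𝓞 K)) : ℝ) ≤ V.card := by exact_mod_cast h3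
    _ ≤ X * (C ^ 2 * D ^ ε) := h4.trans h5
    _ ≤ √D * (C ^ 2 * D ^ ε) := by gcongr
    _ = C ^ 2 * D ^ (1 / 2 + ε) := by
      rw [Real.rpow_add hD0, Real.sqrt_eq_rpow]
      ring

end ELT
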