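import Pool.Agent.W_aaa0df_h68tors.QC
import Pool.Agent.W_aaa0df_h68tors.QD
import Pool.Agent.W_aaa0df_bg.S4

/-!
# l-torsion, QE: class groups of imaginary quadratic fields with structured discriminant
-/

set_option autoImplicit false

namespace ELT

open scoped NumberField
open NumberField Module MPaaa0df

/-- THEOREM. Let `ℓ ≥ 1`, `ε > 0`. There is `C` such that for every imaginary quadratic field `K` of
discriminant `D` and every `y ≥ 1` such that at most one prime factor of `D` exceeds `y` and none exceeds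
`y²`: `|Cl(K)[ℓ]| ≤ C y |D|^(1/2 - 1/(2ℓ) + ε)`.

PROOF. `q = |D|`. `Twist.Fund D` by `fund_discr`. `class_bound (ε/4)`: `h ≤ C₀ q^(1/2+ε/4)`.
`BG.many_split_struct` with `η = ε/4` and `A = 1` holds for `q ≥ D₀`. `x = (q/4)^(1/(2ℓ))` (real power), so every
prime `p < x` has `4 p^(2ℓ) < q`; `x ≤ q`. If `y q^η ≤ x`: the set `S` of the split primes `p < x`
(the set in `splitCount`, finite) has at least `x/(y q^η)` elements, and `ev_lemma` gives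
`|Cl[ℓ]| ≤ h/|S| ≤ C₀ q^(1/2+ε/4) y q^(ε/4)/x ≤ 4 C₀ y q^(1/2-1/(2ℓ)+ε/2)` (`x ≥ q^(1/(2ℓ))/4`). If `y q^η > x`:
`|Cl[ℓ]| ≤ h ≤ C₀ q^(1/2+ε/4) y q^η / x`, the same bound. For `q < D₀`: `|Cl[ℓ]| ≤ h ≤ C₀ q^(1/2+ε/4) ≤ C₀ D₀` and
`y q^(1/2-1/(2ℓ)+ε) ≥ 1`. -/
theorem torsion_struct (ℓ : ℕ) (hℓ : 1 ≤ ℓ) (ε : ℝ) (hε : 0 < ε) : ∃ C : ℝ, 0 < C ∧
    ∀ (K : Type) [Field K] [NumberField K], finrank ℚ K = 2 → discr K < 0 →
      ∀ y : ℝ, 1 ≤ y → BG.StructD (discr K) y →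
        (Nat.card {x : ClassGroup (𝓞 K) // x ^ ℓ = 1} : ℝ) ≤
          C * y * |(discr K : ℝ)| ^ (1 / 2 - 1 / (2 * (ℓ : ℝ)) + ε) := by
  sorry

end ELT
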